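import Mathlib
import Pool.Agent.W70.LD.Mahler
import Pool.Agent.TH53.UG5
import Pool.Agent.H58R.Loc

set_option autoImplicit false

/-!
# Growth gap from lower bounds for the heights of the eigenvalues
-/

namespace Pool.Agent.Y730.UG

open Polynomial IntermediateField Module
open Pool.Agent.H58P (Qb ht)
open Pool.Agent.H58R (ht_nonneg ht_unit_mul ht_one)
open Pool.Agent.H58B (ht_pow)
open Pool.Agent.W963.GE (MM base MM_ge MM_gt base_mono eta_ge)
open Pool.Agent.TH53.UG (base_exp act gap_general integral_of_root eig_of_root)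
open Pool.Agent.H785R3.GrowthA (gam)

lemma isInt (β : Qb) : IsIntegral ℚ β :=
  ((AlgebraicClosure.isAlgebraic ℚ).isAlgebraic β).isIntegral

/-- a positive lower bound for the heights of the elements of a number field that are no roots of
unity gives a lower bound for the Mahler measures of all its radicals -/
lemma radical_bound (K : IntermediateField ℚ Qb) {c : ℝ}
    (hc : ∀ γ ∈ K, γ ≠ 0 → (∀ n : ℕ, 0 < n → γ ^ n ≠ 1) → c ≤ ht γ)
    (β : Qb) (hβ0 : β ≠ 0) (hβ : ∀ n : ℕ, 0 < n → β ^ n ≠ 1) (N : ℕ) (hN : 0 < N)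
    (hK : β ^ N ∈ K) : c ≤ ((minpoly ℚ β).natDegree : ℝ) * ht β := by
  classical
  have hiK : IsIntegral K β := (isInt β).tower_top
  set f := minpoly K β with hf
  set m := f.natDegree with hm
  have hmon : f.Monic := minpoly.monic hiK
  have hm0 : 0 < m := minpoly.natDegree_pos hiK
  have hsp : (f.map (algebraMap K Qb)).Splits := IsAlgClosed.splits _
  -- the roots are the products of `β` with roots of unity of order `N`
  have hroot : ∀ z ∈ f.aroots Qb, z ^ N = β ^ N := by
    intro z hz
    have hz' : aeval z f = 0 := (mem_aroots.1 hz).2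
    have hdvd : f ∣ X ^ N - C (⟨β ^ N, hK⟩ : K) := by
      apply minpoly.dvd
      simp [aeval_def]
    have h1 : aeval z (X ^ N - C (⟨β ^ N, hK⟩ : K)) = 0 := by
      obtain ⟨g, hg⟩ := hdvd
      rw [hg, map_mul, hz', zero_mul]
    rw [map_sub, map_pow, aeval_X, aeval_C, sub_eq_zero] at h1
    exact h1
  have hcard : (f.aroots Qb).card = m := by
    rw [aroots_def, ← hsp.natDegree_eq_card_roots, natDegree_map]
  set γ : Qb := (f.aroots Qb).prod with hγ
  have hγK : γ ∈ K := by
    have h1 := hsp.coeff_zero_eq_prod_roots_of_monic (hmon.map _)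
    rw [natDegree_map, coeff_map] at h1
    have h2 : γ = (-1) ^ m * algebraMap K Qb (f.coeff 0) := by
      rw [h1, ← mul_assoc, ← mul_pow, neg_one_mul, neg_neg, one_pow, one_mul]
    rw [h2]
    exact mul_mem (pow_mem (neg_mem (one_mem _)) _) (f.coeff 0).2
  have hγN : γ ^ N = β ^ (N * m) := by
    have h1 : γ ^ N = ((f.aroots Qb).map (fun z => z ^ N)).prod := by
      rw [hγ, Multiset.prod_map_pow, Multiset.map_id']
    rw [h1, Multiset.map_congr rfl hroot, Multiset.map_const', Multiset.prod_replicate, hcard,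
      pow_mul]
  have hγ0 : γ ≠ 0 := by
    intro h
    rw [h, zero_pow hN.ne'] at hγN
    exact pow_ne_zero _ hβ0 hγN.symm
  have hγr : ∀ n : ℕ, 0 < n → γ ^ n ≠ 1 := by
    intro n hn h
    apply hβ (N * m * n) (by positivity)
    rw [pow_mul, ← hγN, ← pow_mul, mul_comm, pow_mul, h, one_pow]
  have h1 := hc γ hγK hγ0 hγr
  have h2 : ht γ = m * ht β := by
    have h3 := congrArg ht hγN
    rw [ht_pow, ht_pow] at h3
    have hN' : (0 : ℝ) < N := by exact_mod_cast hN
    have h4 : (N : ℝ) * ht γ = N * (m * ht β) := by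
      rw [h3]; push_cast; ring
    exact mul_left_cancel₀ hN'.ne' h4
  rw [h2] at h1
  refine h1.trans (mul_le_mul_of_nonneg_right ?_ (ht_nonneg _))
  have h5 : f ∣ (minpoly ℚ β).map (algebraMap ℚ K) := minpoly.dvd_map_of_isScalarTower ℚ K β
  have h6 := natDegree_le_of_dvd h5 ((minpoly.monic (isInt β)).map _).ne_zero
  rw [natDegree_map] at h6
  exact_mod_cast h6

/-- the Mahler measure of an algebraic integer in terms of the height of a conjugate -/
lemma mahler_ge {x : ℂ} (hx : IsIntegral ℤ x) (β : Qb) (hβ : aeval x (minpoly ℚ β) = 0) :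
    ((minpoly ℚ β).natDegree : ℝ) * ht β ≤ Real.log (MM x) := by
  have e1 : minpoly ℚ x = minpoly ℚ β :=
    (minpoly.eq_of_irreducible_of_monic (minpoly.irreducible (isInt β)) hβ
      (minpoly.monic (isInt β))).symm
  have hint : minpoly ℚ β = (minpoly ℤ x).map (algebraMap ℤ ℚ) := by
    rw [← e1]
    exact minpoly.isIntegrallyClosed_eq_field_fractions' ℚ hx
  have hd0 : 0 < (minpoly ℚ β).natDegree := minpoly.natDegree_pos (isInt β)
  have h1 := Pool.Agent.W70.LD.ht_le_hM β
  have h2 : sInf (Pool.Agent.H58W.dens β) = 1 := by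
    apply le_antisymm
    · apply Nat.sInf_le
      refine ⟨one_pos, fun i => ?_⟩
      rw [hint, coeff_map, Nat.cast_one, one_mul]
      exact Rat.den_intCast _
    · exact (Pool.Agent.H58W.sInf_mem β).1
  have h3 : Pool.Agent.H58W.hM β = Real.log (MM x) / ((minpoly ℚ β).natDegree : ℝ) := by
    unfold Pool.Agent.H58W.hM MM
    rw [h2, Nat.cast_one, one_mul]
    congr 3
    rw [hint, Polynomial.map_map]
    congr 1
  rw [h3, le_div_iff₀ (by exact_mod_cast hd0)] at h1
  linarith

universe u

/-- **growth gap from heights** -/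
theorem gap_height {k d : ℕ} (hk : 1 ≤ k) {G : Type u} [Group G] (S : Set G)
    (hfin : S.Finite) (hgen : Subgroup.closure S = ⊤) (H : Subgroup G) (hH0 : H.index ≠ 0)
    (hHd : H.index ≤ d)
    (hnil : Group.IsNilpotent (gam H k) ∨ ¬ Group.IsVirtuallyNilpotent (H ⧸ ⁅gam H k, gam H k⁆))
    {c : ℝ} (hc0 : 0 < c) (hc2 : c ≤ 1 / 2)
    (hc : ∀ (t : H) (z : ℂ), Module.End.HasEigenvalue
      (LinearMap.baseChange ℂ (act (gam H k) t) :
        Module.End ℂ (TensorProduct ℤ ℂ (Additive (Abelianization (gam H k))))) z →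
      IsIntegral ℤ z → IsIntegral ℤ z⁻¹ → z ≠ 0 → (∀ n > 0, z ^ n ≠ 1) →
      ∃ β : Qb, aeval z (minpoly ℚ β) = 0 ∧ c ≤ ((minpoly ℚ β).natDegree : ℝ) * ht β) :
    Group.IsVirtuallyNilpotent G ∨ c / (12 * 2 ^ k * d) ≤ H746UG.rho S := by
  have hd : 1 ≤ d := by omega
  have h := gap_general hk S hfin hgen H hH0 hHd hnil (c := c / 3)
    (by have := Real.log_two_gt_d9; linarith) (by
    intro hMf t b x hx0 hx hp
    have hxi : IsIntegral ℤ x := integral_of_root _ b hp
    by_cases hi : IsIntegral ℤ x⁻¹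
    · obtain ⟨β, hβ, hcβ⟩ := hc t x (eig_of_root (act (gam H k) t) b hp (minpoly.aeval ℤ x)) hxi hi
        hx0 hx
      have h1 := mahler_ge hxi β hβ
      have hM : 1 < MM x := MM_gt x hxi hx0 hx
      have hM0 : 0 < MM x := by linarith
      refine le_trans ?_ (eta_ge x hx0 hxi)
      refine base_exp hM0 ?_ hc0.le (by linarith)
      -- `c ≤ 1 - 1 / M²`
      have h2 : Real.exp c ≤ MM x := by
        rw [← Real.exp_log hM0]
        exact Real.exp_le_exp.2 (by linarith)
      have h3 : (1 + c) ^ 2 ≤ MM x ^ 2 := by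
        have h4 : 1 + c ≤ Real.exp c := by linarith [Real.add_one_le_exp c]
        exact pow_le_pow_left₀ (by linarith) (h4.trans h2) 2
      have h5 : 1 / MM x ^ 2 ≤ 1 / (1 + c) ^ 2 :=
        one_div_le_one_div_of_le (by positivity) h3
      have h6 : 1 / (1 + c) ^ 2 ≤ 1 - c := by
        rw [div_le_iff₀ (by positivity)]
        have h7 : (1 - c) * (1 + c) ^ 2 = 1 + c * (1 - c - c ^ 2) := by ring
        have h8 : 0 ≤ 1 - c - c ^ 2 := by nlinarith
        rw [h7]
        nlinarith [mul_nonneg hc0.le h8]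
      linarith
    · rw [H746UG.eta_eq_log_two x hx0 (fun h => hi h.2)]
      have := Real.log_two_gt_d9
      linarith)
  rcases h with h | h
  · exact Or.inl h
  · right
    refine le_trans ?_ h
    have hd' : (1 : ℝ) ≤ d := by exact_mod_cast hd
    have hpos : (0 : ℝ) < 2 ^ (k + 1) * (2 * d - 1) := by
      have : (0 : ℝ) < 2 * d - 1 := by linarith
      positivity
    rw [div_div]
    apply div_le_div_of_nonneg_left hc0.le (by positivity)
    have h2k : (0 : ℝ) < 2 ^ k := by positivity
    rw [pow_succ]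
    nlinarith

end Pool.Agent.Y730.UG
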