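import Mathlib
import Pool.Agent.TH53.UG4

set_option autoImplicit false

/-!
# Groups of triangular matrices: eigenvalues on the abelianisation of the commutator subgroup
-/

namespace Pool.Agent.Y730.UG

open Matrix Polynomial
open scoped commutatorElement

variable {n : ℕ} {F : Type*} [Field F]

/-- all entries `(i, j)` with `j < i + m` vanish -/
def Lev (m : ℕ) (N : Matrix (Fin n) (Fin n) F) : Prop :=
  ∀ i j : Fin n, (j : ℕ) < i + m → N i j = 0

lemma Lev.mono {m k : ℕ} (h : k ≤ m) {N : Matrix (Fin n) (Fin n) F} (hN : Lev m N) : Lev k N :=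
  fun i j hij => hN i j (by omega)

lemma Lev.add {m : ℕ} {N N' : Matrix (Fin n) (Fin n) F} (h : Lev m N) (h' : Lev m N') :
    Lev m (N + N') := fun i j hij => by rw [Matrix.add_apply, h i j hij, h' i j hij, add_zero]

lemma Lev.neg {m : ℕ} {N : Matrix (Fin n) (Fin n) F} (h : Lev m N) :
    Lev m (-N) := fun i j hij => by rw [Matrix.neg_apply, h i j hij, neg_zero]

lemma Lev.sub {m : ℕ} {N N' : Matrix (Fin n) (Fin n) F} (h : Lev m N) (h' : Lev m N') :
    Lev m (N - N') := fun i j hij => by rw [Matrix.sub_apply, h i j hij, h' i j hij, sub_zero]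

lemma Lev.mul {a b : ℕ} {N N' : Matrix (Fin n) (Fin n) F} (h : Lev a N) (h' : Lev b N') :
    Lev (a + b) (N * N') := fun i j hij => by
  rw [Matrix.mul_apply]
  apply Finset.sum_eq_zero
  intro k _
  by_cases hk : (k : ℕ) < i + a
  · rw [h i k hk, zero_mul]
  · rw [h' k j (by omega), mul_zero]

lemma Lev.one : Lev 0 (1 : Matrix (Fin n) (Fin n) F) := fun i j hij => by
  rw [Matrix.one_apply_ne]
  rintro rfl
  omega

/-- the entries on the first possibly nonzero diagonal of a product -/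
lemma Lev.mul_diag {a b : ℕ} {N N' : Matrix (Fin n) (Fin n) F} (h : Lev a N) (h' : Lev b N')
    {i j k : Fin n} (hk : (k : ℕ) = i + a) (hj : (j : ℕ) = k + b) :
    (N * N') i j = N i k * N' k j := by
  rw [Matrix.mul_apply]
  refine Finset.sum_eq_single k (fun l _ hl => ?_) (fun h => absurd (Finset.mem_univ _) h)
  by_cases hk' : (l : ℕ) < i + a
  · rw [h i l hk', zero_mul]
  · have : (l : ℕ) ≠ k := fun h => hl (Fin.ext h)
    rw [h' l j (by omega), mul_zero]

lemma Lev.eq_zero {m : ℕ} (hm : n ≤ m) {N : Matrix (Fin n) (Fin n) F} (h : Lev m N) : N = 0 := by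
  ext i j
  exact h i j (by omega)

/-- the group of invertible upper triangular matrices -/
def Bor (n : ℕ) (F : Type*) [Field F] : Subgroup (GL (Fin n) F) where
  carrier := {A | Lev 0 (A : Matrix (Fin n) (Fin n) F) ∧
    Lev 0 ((A⁻¹ : GL (Fin n) F) : Matrix (Fin n) (Fin n) F)}
  mul_mem' {A B} hA hB := by
    refine ⟨?_, ?_⟩
    · rw [Units.val_mul]
      exact hA.1.mul hB.1
    · rw [_root_.mul_inv_rev, Units.val_mul]
      exact hB.2.mul hA.2
  one_mem' := by
    refine ⟨?_, ?_⟩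
    · rw [Units.val_one]
      exact Lev.one
    · rw [inv_one, Units.val_one]
      exact Lev.one
  inv_mem' {A} hA := by
    refine ⟨hA.2, ?_⟩
    rw [inv_inv]
    exact hA.1

/-- upper triangular invertible matrices -/
lemma mem_Bor {A : GL (Fin n) F} (hA : ∀ i j : Fin n, j < i → A i j = 0) : A ∈ Bor n F := by
  have h1 : BlockTriangular (A : Matrix (Fin n) (Fin n) F) id := fun i j hij => hA i j hij
  have h2 : BlockTriangular ((A : Matrix (Fin n) (Fin n) F)⁻¹) id := by
    have : Invertible (A : Matrix (Fin n) (Fin n) F) := A.invertible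
    exact blockTriangular_inv_of_blockTriangular h1
  refine ⟨fun i j hij => hA i j (by simpa using hij), fun i j hij => ?_⟩
  rw [Matrix.coe_units_inv]
  exact h2 (by simpa using hij)

lemma diag_mul {A B : GL (Fin n) F} (hA : A ∈ Bor n F) (hB : B ∈ Bor n F) (i : Fin n) :
    (A * B) i i = A i i * B i i := by
  have := Lev.mul_diag hA.1 hB.1 (i := i) (j := i) (k := i) rfl rfl
  rw [← this]
  rfl

lemma diag_inv {A : GL (Fin n) F} (hA : A ∈ Bor n F) (i : Fin n) : A⁻¹ i i = (A i i)⁻¹ := by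
  have h := diag_mul hA (inv_mem hA) i
  rw [mul_inv_cancel] at h
  have h1 : (1 : GL (Fin n) F) i i = 1 := by simp
  rw [h1] at h
  exact (eq_inv_of_mul_eq_one_right h.symm)

lemma diag_ne {A : GL (Fin n) F} (hA : A ∈ Bor n F) (i : Fin n) : A i i ≠ 0 := by
  intro h0
  have h := diag_mul hA (inv_mem hA) i
  rw [mul_inv_cancel, h0, zero_mul] at h
  simp at h

/-- the congruence filtration of the group of unitriangular matrices -/
def Uf (n : ℕ) (F : Type*) [Field F] (m : ℕ) : Subgroup (GL (Fin n) F) where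
  carrier := {A | A ∈ Bor n F ∧ Lev m ((A : Matrix (Fin n) (Fin n) F) - 1)}
  mul_mem' {A B} hA hB := by
    refine ⟨mul_mem hA.1 hB.1, ?_⟩
    have e : ((A * B : GL (Fin n) F) : Matrix (Fin n) (Fin n) F) - 1 =
        ((A : Matrix (Fin n) (Fin n) F) - 1) * B + ((B : Matrix (Fin n) (Fin n) F) - 1) := by
      rw [Units.val_mul]
      noncomm_ring
    rw [e]
    exact (hA.2.mul hB.1.1).add hB.2
  one_mem' := by
    refine ⟨one_mem _, ?_⟩
    rw [Units.val_one, sub_self]
    exact fun i j _ => rfl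
  inv_mem' {A} hA := by
    refine ⟨inv_mem hA.1, ?_⟩
    have e : ((A⁻¹ : GL (Fin n) F) : Matrix (Fin n) (Fin n) F) - 1 =
        -(((A : Matrix (Fin n) (Fin n) F) - 1) * ((A⁻¹ : GL (Fin n) F) : Matrix _ _ F)) := by
      rw [sub_mul, one_mul, ← Units.val_mul, mul_inv_cancel, Units.val_one]
      abel
    rw [e]
    exact (hA.2.mul hA.1.2).neg

lemma Uf_top {m : ℕ} (hm : n ≤ m) {A : GL (Fin n) F} (hA : A ∈ Uf n F m) : A = 1 := by
  apply Units.ext
  rw [Units.val_one]
  exact sub_eq_zero.1 (hA.2.eq_zero hm)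

/-- commutators raise the level -/
lemma comm_Uf {a b : ℕ} {A B : GL (Fin n) F} (hA : A ∈ Uf n F a) (hB : B ∈ Uf n F b) :
    ⁅A, B⁆ ∈ Uf n F (a + b) := by
  have hAB : ⁅A, B⁆ ∈ Bor n F := by
    rw [commutatorElement_def]
    exact mul_mem (mul_mem (mul_mem hA.1 hB.1) (inv_mem hA.1)) (inv_mem hB.1)
  refine ⟨hAB, ?_⟩
  set M : Matrix (Fin n) (Fin n) F := (A : Matrix (Fin n) (Fin n) F) with hM
  set N : Matrix (Fin n) (Fin n) F := (B : Matrix (Fin n) (Fin n) F) with hN
  have e : ((⁅A, B⁆ : GL (Fin n) F) : Matrix (Fin n) (Fin n) F) - 1 =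
      ((M - 1) * (N - 1) - (N - 1) * (M - 1)) *
        (((A⁻¹ * B⁻¹ : GL (Fin n) F)) : Matrix (Fin n) (Fin n) F) := by
    have e1 : (M - 1) * (N - 1) - (N - 1) * (M - 1) = M * N - N * M := by noncomm_ring
    have e2 : ((⁅A, B⁆ : GL (Fin n) F) : Matrix (Fin n) (Fin n) F) =
        (M * N) * (((A⁻¹ * B⁻¹ : GL (Fin n) F)) : Matrix (Fin n) (Fin n) F) := by
      rw [commutatorElement_def, mul_assoc (A * B), Units.val_mul, Units.val_mul A B]
    have e3 : (1 : Matrix (Fin n) (Fin n) F) =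
        (N * M) * (((A⁻¹ * B⁻¹ : GL (Fin n) F)) : Matrix (Fin n) (Fin n) F) := by
      rw [← Units.val_mul, ← Units.val_mul]
      have : B * A * (A⁻¹ * B⁻¹) = 1 := by group
      rw [this, Units.val_one]
    rw [e1, sub_mul, ← e2, ← e3]
  rw [e]
  have h1 : Lev (a + b) ((M - 1) * (N - 1)) := hA.2.mul hB.2
  have h2 : Lev (a + b) ((N - 1) * (M - 1)) := (hB.2.mul hA.2).mono (by omega)
  exact (h1.sub h2).mul (mul_mem (inv_mem hA.1) (inv_mem hB.1)).1

/-- commutators of triangular matrices are unitriangular -/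
lemma comm_Bor {A B : GL (Fin n) F} (hA : A ∈ Bor n F) (hB : B ∈ Bor n F) :
    ⁅A, B⁆ ∈ Uf n F 1 := by
  have hAB : ⁅A, B⁆ ∈ Bor n F := by
    rw [commutatorElement_def]
    exact mul_mem (mul_mem (mul_mem hA hB) (inv_mem hA)) (inv_mem hB)
  refine ⟨hAB, fun i j hij => ?_⟩
  rcases (Nat.lt_succ_iff.1 hij).lt_or_eq with h | h
  · rw [Matrix.sub_apply, hAB.1 i j (by omega), Matrix.one_apply_ne, sub_zero]
    rintro rfl
    omega
  · have hji : j = i := Fin.ext h
    rw [hji, Matrix.sub_apply, Matrix.one_apply_eq, sub_eq_zero]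
    have h1 : (⁅A, B⁆ : GL (Fin n) F) i i = 1 := by
      rw [commutatorElement_def, diag_mul (mul_mem (mul_mem hA hB) (inv_mem hA)) (inv_mem hB),
        diag_mul (mul_mem hA hB) (inv_mem hA), diag_mul hA hB, diag_inv hA, diag_inv hB]
      have h2 := diag_ne hA i
      have h3 := diag_ne hB i
      field_simp
    exact h1

/-- conjugation by a triangular matrix -/
lemma conj_Uf {m : ℕ} {T A : GL (Fin n) F} (hT : T ∈ Bor n F) (hA : A ∈ Uf n F m) :
    T * A * T⁻¹ ∈ Uf n F m ∧ ∀ i j : Fin n, (j : ℕ) = i + m →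
      ((T * A * T⁻¹ : GL (Fin n) F) : Matrix _ _ F) i j - (1 : Matrix (Fin n) (Fin n) F) i j =
        T i i / T j j * ((A : Matrix _ _ F) i j - (1 : Matrix (Fin n) (Fin n) F) i j) := by
  have e : ((T * A * T⁻¹ : GL (Fin n) F) : Matrix (Fin n) (Fin n) F) - 1 =
      (T : Matrix (Fin n) (Fin n) F) * ((A : Matrix (Fin n) (Fin n) F) - 1) *
        ((T⁻¹ : GL (Fin n) F) : Matrix (Fin n) (Fin n) F) := by
    rw [mul_sub, mul_one, sub_mul, ← Units.val_mul, ← Units.val_mul, ← Units.val_mul,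
      mul_inv_cancel, Units.val_one]
  refine ⟨⟨mul_mem (mul_mem hT hA.1) (inv_mem hT), ?_⟩, fun i j hij => ?_⟩
  · rw [e]
    have := (hT.1.mul hA.2).mul hT.2
    simpa using this
  · rw [← Matrix.sub_apply, e, Lev.mul_diag (hT.1.mul hA.2) hT.2 (k := j) (by omega) (by omega),
      Lev.mul_diag hT.1 hA.2 (k := i) (by omega) hij]
    have h1 : ((T⁻¹ : GL (Fin n) F) : Matrix (Fin n) (Fin n) F) j j = (T j j)⁻¹ := diag_inv hT j
    rw [h1, Matrix.sub_apply]
    change T i i * _ * _ = _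
    ring

lemma mul_Uf {m : ℕ} (hm : 1 ≤ m) {A B : GL (Fin n) F} (hA : A ∈ Uf n F m) (hB : B ∈ Uf n F m)
    (i j : Fin n) (hij : (j : ℕ) = i + m) :
    ((A * B : GL (Fin n) F) : Matrix _ _ F) i j - (1 : Matrix (Fin n) (Fin n) F) i j =
      ((A : Matrix _ _ F) i j - (1 : Matrix (Fin n) (Fin n) F) i j) +
      ((B : Matrix _ _ F) i j - (1 : Matrix (Fin n) (Fin n) F) i j) := by
  have e : ((A * B : GL (Fin n) F) : Matrix (Fin n) (Fin n) F) - 1 =
      ((A : Matrix (Fin n) (Fin n) F) - 1) * ((B : Matrix (Fin n) (Fin n) F) - 1) +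
      (((A : Matrix (Fin n) (Fin n) F) - 1) + ((B : Matrix (Fin n) (Fin n) F) - 1)) := by
    rw [Units.val_mul]
    noncomm_ring
  rw [← Matrix.sub_apply, e, Matrix.add_apply, (hA.2.mul hB.2) i j (by omega), zero_add,
    Matrix.add_apply, Matrix.sub_apply, Matrix.sub_apply]

end Pool.Agent.Y730.UG
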