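import Mathlib
import Pool.Agent.Y730.UG.Tri

set_option autoImplicit false

/-!
# Groups of triangular matrices: eigenvalues on the abelianisation of the commutator subgroup
-/

namespace Pool.Agent.Y730.UG

open Matrix Polynomial
open scoped commutatorElement TensorProduct
open Pool.Agent.H785R3.GrowthA (gam)
open Pool.Agent.TH53.UG (act act_of)

universe u

variable {n : ℕ} {F : Type*} [Field F] {G : Type u} [Group G]

lemma gam_one_le (φ : G →* GL (Fin n) F) (hφ : ∀ g, φ g ∈ Bor n F) :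
    gam G 1 ≤ (Uf n F 1).comap φ := by
  change ⁅(⊤ : Subgroup G), (⊤ : Subgroup G)⁆ ≤ _
  rw [Subgroup.commutator_le]
  intro a _ b _
  rw [Subgroup.mem_comap, map_commutatorElement]
  exact comm_Bor (hφ a) (hφ b)

lemma gam_nilp (φ : G →* GL (Fin n) F) (hφ : ∀ g, φ g ∈ Bor n F)
    (hinj : Function.Injective φ) : Group.IsNilpotent (gam G 1) := by
  rw [Subgroup.isNilpotent_iff_lowerCentralSeries]
  refine ⟨n, ?_⟩
  have key : ∀ m, (gam G 1).lowerCentralSeries m ≤ (Uf n F (m + 1)).comap φ := by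
    intro m
    induction m with
    | zero => exact gam_one_le φ hφ
    | succ m ih =>
      rw [Subgroup.lowerCentralSeries_succ, Subgroup.commutator_le]
      intro a ha b hb
      rw [Subgroup.mem_comap, map_commutatorElement]
      exact comm_Uf (ih ha) (gam_one_le φ hφ hb)
  rw [eq_bot_iff]
  intro a ha
  rw [Subgroup.mem_bot]
  apply hinj
  rw [map_one]
  exact Uf_top (by omega) (key n ha)

/-- the entries on the first diagonal as a homomorphism -/
def ent {m : ℕ} (hm : 1 ≤ m) (i j : Fin n) (hij : (j : ℕ) = i + m) :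
    Uf n F m →* Multiplicative F where
  toFun A := Multiplicative.ofAdd
    ((A : GL (Fin n) F) i j - (1 : Matrix (Fin n) (Fin n) F) i j)
  map_one' := by
    have : ((1 : Uf n F m) : GL (Fin n) F) i j = (1 : Matrix (Fin n) (Fin n) F) i j := by
      simp
    rw [this, sub_self, ofAdd_zero]
  map_mul' A B := by
    rw [← ofAdd_add]
    congr 1
    exact mul_Uf hm A.2 B.2 i j hij

/-- the class of an element in the abelianisation, written additively -/
abbrev cls (N : Subgroup G) (a : N) : Additive (Abelianization N) :=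
  Additive.ofMul (Abelianization.of a)

lemma cls_surj (N : Subgroup G) (x : Additive (Abelianization N)) : ∃ a, cls N a = x := by
  obtain ⟨a, ha⟩ := QuotientGroup.mk_surjective (Additive.toMul x)
  exact ⟨a, ha⟩

lemma step_X (φ : G →* GL (Fin n) F) (hφ : ∀ g, φ g ∈ Bor n F) (t : G) {m : ℕ}
    (a : gam G 1) (ha : φ a ∈ Uf n F m) (k : ℕ) :
    ∃ b : gam G 1, φ b ∈ Uf n F m ∧ cls _ b = ((act (gam G 1) t) ^ k) (cls _ a) ∧
      ∀ i j : Fin n, (j : ℕ) = i + m → (φ b) i j - (1 : Matrix (Fin n) (Fin n) F) i j =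
        (φ t i i / φ t j j) ^ k * ((φ a) i j - (1 : Matrix (Fin n) (Fin n) F) i j) := by
  induction k with
  | zero => exact ⟨a, ha, by rw [pow_zero]; rfl, fun i j _ => by simp⟩
  | succ k ih =>
    obtain ⟨b, hb, hb1, hb2⟩ := ih
    have e : φ (MulAut.conjNormal t b : gam G 1) = φ t * φ b * (φ t)⁻¹ := by
      rw [MulAut.conjNormal_apply, map_mul, map_mul, map_inv]
    obtain ⟨h1, h2⟩ := conj_Uf (hφ t) hb
    refine ⟨MulAut.conjNormal t b, ?_, ?_, ?_⟩
    · rw [e]
      exact h1
    · rw [cls, ← act_of, pow_succ', Module.End.mul_apply, ← hb1]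
    · intro i j hij
      rw [e]
      refine (h2 i j hij).trans ?_
      rw [hb2 i j hij, pow_succ']
      ring

lemma step (φ : G →* GL (Fin n) F) (hφ : ∀ g, φ g ∈ Bor n F) (t : G) {m : ℕ} (hm : 1 ≤ m)
    (p : ℤ[X]) (a : gam G 1) (ha : φ a ∈ Uf n F m) :
    ∃ b : gam G 1, φ b ∈ Uf n F m ∧
      cls _ b = (aeval (act (gam G 1) t) p) (cls _ a) ∧
      ∀ i j : Fin n, (j : ℕ) = i + m → (φ b) i j - (1 : Matrix (Fin n) (Fin n) F) i j =
        aeval (φ t i i / φ t j j) p *
          ((φ a) i j - (1 : Matrix (Fin n) (Fin n) F) i j) := by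
  induction p using Polynomial.induction_on' with
  | add p q hp hq =>
    obtain ⟨b, hb, hb1, hb2⟩ := hp
    obtain ⟨c, hc, hc1, hc2⟩ := hq
    refine ⟨b * c, ?_, ?_, ?_⟩
    · rw [Subgroup.coe_mul, map_mul]
      exact mul_mem hb hc
    · rw [map_add, LinearMap.add_apply, ← hb1, ← hc1, cls, map_mul, ofMul_mul]
    · intro i j hij
      rw [Subgroup.coe_mul, map_mul]
      refine (mul_Uf hm hb hc i j hij).trans ?_
      have h1 := hb2 i j hij
      have h2 := hc2 i j hij
      rw [map_add, add_mul]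
      exact congrArg₂ (· + ·) h1 h2
  | monomial k c =>
    obtain ⟨b, hb, hb1, hb2⟩ := step_X φ hφ t a ha k
    refine ⟨b ^ c, ?_, ?_, ?_⟩
    · rw [Subgroup.coe_zpow, map_zpow]
      exact zpow_mem hb c
    · rw [aeval_monomial, Module.End.mul_apply, Module.algebraMap_end_apply, ← hb1, cls, map_zpow,
        ofMul_zpow]
    · intro i j hij
      have h1 := map_zpow (ent hm i j hij) (⟨φ b, hb⟩ : Uf n F m) c
      have h2 : Multiplicative.toAdd (ent hm i j hij ((⟨φ b, hb⟩ : Uf n F m) ^ c)) =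
          (φ (b ^ c : gam G 1)) i j - (1 : Matrix (Fin n) (Fin n) F) i j := by
        have e1 : (((⟨φ b, hb⟩ : Uf n F m) ^ c : Uf n F m) : GL (Fin n) F) =
            φ ((b ^ c : gam G 1) : G) := by
          rw [Subgroup.coe_zpow, Subgroup.coe_zpow, map_zpow]
        rw [← e1]
        rfl
      rw [← h2, h1, toAdd_zpow]
      have h3 : Multiplicative.toAdd (ent hm i j hij (⟨φ b, hb⟩ : Uf n F m)) =
          (φ b) i j - (1 : Matrix (Fin n) (Fin n) F) i j := rfl
      rw [h3, hb2 i j hij, aeval_monomial, zsmul_eq_mul, eq_intCast]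
      ring

lemma iter (φ : G →* GL (Fin n) F) (hφ : ∀ g, φ g ∈ Bor n F) (t : G) (p : ℤ[X])
    (hp : ∀ i j : Fin n, aeval (φ t i i / φ t j j) p = 0) (m : ℕ) (a : gam G 1) :
    ∃ b : gam G 1, φ b ∈ Uf n F (m + 1) ∧
      cls _ b = ((aeval (act (gam G 1) t) p) ^ m) (cls _ a) := by
  induction m with
  | zero => exact ⟨a, gam_one_le φ hφ a.2, by rw [pow_zero]; rfl⟩
  | succ m ih =>
    obtain ⟨b, hb, hb1⟩ := ih
    obtain ⟨c, hc, hc1, hc2⟩ := step φ hφ t (by omega) p b hb
    refine ⟨c, ⟨hc.1, fun i j hij => ?_⟩, ?_⟩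
    · rcases (Nat.lt_succ_iff.1 hij).lt_or_eq with h | h
      · exact hc.2 i j (by omega)
      · rw [Matrix.sub_apply]
        have h1 := hc2 i j (by omega)
        rw [hp i j, zero_mul] at h1
        exact h1
    · rw [hc1, hb1, pow_succ', Module.End.mul_apply]

/-- **the eigenvalues on the abelianisation of the commutator subgroup are quotients of diagonal
entries** -/
theorem eig_poly (φ : G →* GL (Fin n) F) (hφ : ∀ g, φ g ∈ Bor n F)
    (hinj : Function.Injective φ) (t : G) (p : ℤ[X])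
    (hp : ∀ i j : Fin n, aeval (φ t i i / φ t j j) p = 0) {z : ℂ}
    (hz : Module.End.HasEigenvalue (LinearMap.baseChange ℂ (act (gam G 1) t) :
      Module.End ℂ (ℂ ⊗[ℤ] Additive (Abelianization (gam G 1)))) z) :
    aeval z p = 0 := by
  set g := act (gam G 1) t with hg
  have h0 : (aeval g p) ^ n = 0 := by
    ext x
    obtain ⟨a, rfl⟩ := cls_surj _ x
    obtain ⟨b, hb, hb1⟩ := iter φ hφ t p hp n a
    have h1 : b = 1 := by
      apply Subtype.ext
      apply hinj
      rw [Uf_top (by omega) hb, OneMemClass.coe_one, map_one]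
    rw [LinearMap.zero_apply, ← hb1, h1, cls, map_one, ofMul_one]
  obtain ⟨v, hv⟩ := hz.exists_hasEigenvector
  have h2 : aeval (Module.End.baseChangeHom ℤ ℂ _ g) p =
      Module.End.baseChangeHom ℤ ℂ _ (aeval g p) := aeval_algHom_apply _ _ _
  have h3 : aeval (Module.End.baseChangeHom ℤ ℂ _ g) (p.map (algebraMap ℤ ℂ)) =
      aeval (Module.End.baseChangeHom ℤ ℂ _ g) p := aeval_map_algebraMap ℂ _ p
  have h4 : (aeval (Module.End.baseChangeHom ℤ ℂ _ g) ((p.map (algebraMap ℤ ℂ)) ^ n)) v =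
      ((p.map (algebraMap ℤ ℂ)) ^ n).eval z • v :=
    Module.End.aeval_apply_of_hasEigenvector hv
  rw [map_pow, h3, h2, ← map_pow, h0, map_zero, LinearMap.zero_apply, eval_pow] at h4
  have h5 : ((p.map (algebraMap ℤ ℂ)).eval z) ^ n = 0 := by
    rcases smul_eq_zero.1 h4.symm with h | h
    · exact h
    · exact absurd h hv.2
  have h6 : (p.map (algebraMap ℤ ℂ)).eval z = 0 := by
    by_contra h
    exact pow_ne_zero n h h5
  rw [eval_map_algebraMap] at h6
  exact h6

/-- an integer polynomial with the same zeros as the minimal polynomial -/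
lemma exists_int_poly (β : AlgebraicClosure ℚ) : ∃ P : ℤ[X],
    aeval β P = 0 ∧ ∀ z : ℂ, aeval z P = 0 → aeval z (minpoly ℚ β) = 0 := by
  obtain ⟨b, hb, hbP⟩ := IsLocalization.integerNormalization_spec (nonZeroDivisors ℤ) (minpoly ℚ β)
  have hb0 : b ≠ 0 := nonZeroDivisors.ne_zero hb
  refine ⟨IsLocalization.integerNormalization (nonZeroDivisors ℤ) (minpoly ℚ β), ?_, ?_⟩
  · rw [← aeval_map_algebraMap ℚ, hbP, map_zsmul, minpoly.aeval, smul_zero]
  · intro z hz
    rw [← aeval_map_algebraMap ℚ, hbP, map_zsmul] at hz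
    rcases smul_eq_zero.mp hz with h | h
    · exact absurd h hb0
    · exact h

theorem eig_tri (φ : G →* GL (Fin n) ℂ) (hφ : ∀ g, φ g ∈ Bor n ℂ)
    (hinj : Function.Injective φ) (t : G) (ι : AlgebraicClosure ℚ →+* ℂ)
    (β : Fin n → AlgebraicClosure ℚ) (hβ : ∀ i, ι (β i) = φ t i i) {z : ℂ}
    (hz : Module.End.HasEigenvalue (LinearMap.baseChange ℂ (act (gam G 1) t) :
      Module.End ℂ (ℂ ⊗[ℤ] Additive (Abelianization (gam G 1)))) z) :
    ∃ i j, aeval z (minpoly ℚ (β i / β j)) = 0 := by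
  choose P hP1 hP2 using exists_int_poly
  have h := eig_poly φ hφ hinj t (∏ i, ∏ j, P (β i / β j)) (fun i j => by
    rw [map_prod]
    apply Finset.prod_eq_zero (Finset.mem_univ i)
    rw [map_prod]
    apply Finset.prod_eq_zero (Finset.mem_univ j)
    have h1 := congrArg ι (hP1 (β i / β j))
    rw [map_zero] at h1
    have h2 : ι (aeval (β i / β j) (P (β i / β j))) = aeval (ι (β i / β j)) (P (β i / β j)) := by
      have := aeval_algHom_apply (ι.toIntAlgHom) (β i / β j) (P (β i / β j))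
      exact this.symm
    rw [h2, map_div₀, hβ, hβ] at h1
    exact h1) hz
  rw [map_prod, Finset.prod_eq_zero_iff] at h
  obtain ⟨i, -, h⟩ := h
  rw [map_prod, Finset.prod_eq_zero_iff] at h
  obtain ⟨j, -, h⟩ := h
  exact ⟨i, j, hP2 _ z h⟩

end Pool.Agent.Y730.UG
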